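import Mathlib

set_option autoImplicit false

namespace Pool.Agent.Results.MP_706923_co.DihedralQuotient

open Finset
open scoped ComplexConjugate

section Core

variable {α : Type*} [AddCommGroup α] [Fintype α] [DecidableEq α]

/-- The Fourier coefficient of an integer valued function at a character. -/
noncomputable def four (A : α → ℤ) (ψ : AddChar α ℂ) : ℂ := ∑ x, (A x : ℂ) * ψ x

omit [DecidableEq α] in
theorem four_mul (A B : α → ℤ) (ψ : AddChar α ℂ) :
    four A ψ * four B ψ = ∑ g, ((∑ y, A y * B (g - y) : ℤ) : ℂ) * ψ g := by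
  unfold four
  rw [Finset.sum_mul_sum]
  push_cast
  simp_rw [Finset.sum_mul]
  rw [Finset.sum_comm (s := univ) (t := univ) (f := fun g y => (A y : ℂ) * (B (g - y) : ℂ) * ψ g)]
  refine Finset.sum_congr rfl fun x _ => ?_
  refine Fintype.sum_equiv (Equiv.addRight x) _ _ fun y => ?_
  simp only [Equiv.coe_addRight, add_sub_cancel_right, AddChar.map_add_eq_mul]
  ring

omit [DecidableEq α] in
theorem four_mul_conj (A : α → ℤ) (ψ : AddChar α ℂ) :
    four A ψ * conj (four A ψ) = ∑ g, ((∑ y, A (y + g) * A y : ℤ) : ℂ) * ψ g := by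
  unfold four
  rw [map_sum, Finset.sum_mul_sum, Finset.sum_comm]
  push_cast
  simp_rw [Finset.sum_mul]
  rw [Finset.sum_comm (s := univ) (t := univ) (f := fun g y => (A (y + g) : ℂ) * (A y : ℂ) * ψ g)]
  refine Finset.sum_congr rfl fun x _ => ?_
  refine (Fintype.sum_equiv (Equiv.addLeft x) _ _ fun y => ?_).symm
  simp only [Equiv.coe_addLeft, AddChar.map_add_eq_mul, map_mul, map_intCast,
    ← AddChar.map_neg_eq_conj]
  have : ψ x * ψ (-x) = 1 := by
    rw [← AddChar.map_add_eq_mul]; simp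
  calc (A (x + y) : ℂ) * (A x : ℂ) * ψ y = (A (x + y) : ℂ) * (A x : ℂ) * ψ y * (ψ x * ψ (-x)) := by
        rw [this, mul_one]
    _ = _ := by ring

theorem inversion (R : α → ℤ) (g : α) :
    ∑ ψ : AddChar α ℂ, four R ψ * ψ (-g) = (Fintype.card α : ℂ) * (R g : ℂ) := by
  unfold four
  simp_rw [Finset.sum_mul]
  rw [Finset.sum_comm]
  have : ∀ x : α, ∑ ψ : AddChar α ℂ, (R x : ℂ) * ψ x * ψ (-g)
      = (R x : ℂ) * (if x + -g = 0 then (Fintype.card α : ℂ) else 0) := by
    intro x
    rw [← AddChar.sum_apply_eq_ite, Finset.mul_sum]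
    refine Finset.sum_congr rfl fun ψ _ => ?_
    rw [AddChar.map_add_eq_mul]; ring
  rw [Finset.sum_congr rfl fun x _ => this x]
  simp only [add_neg_eq_zero, mul_ite, mul_zero, Finset.sum_ite_eq', Finset.mem_univ, if_true]
  ring

omit [DecidableEq α] in
theorem integral_char (ψ : AddChar α ℂ) (x : α) : IsIntegral ℤ (ψ x) := by
  have h : (ψ x) ^ (Fintype.card α) = 1 := by
    rw [← AddChar.map_nsmul_eq_pow, card_nsmul_eq_zero]; simp
  exact IsIntegral.of_pow (n := Fintype.card α) Fintype.card_pos (by rw [h]; exact isIntegral_one)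

theorem int_of_integral (z : ℂ) (p q : ℤ) (hz : IsIntegral ℤ z) (hq : q ≠ 0)
    (h : (q : ℂ) * z = p) : ∃ f : ℤ, z = f := by
  have hz' : z = algebraMap ℚ ℂ ((p : ℚ) / q) := by
    have : (q : ℂ) ≠ 0 := by exact_mod_cast hq
    simp only [eq_ratCast, Rat.cast_div, Rat.cast_intCast]
    field_simp
    linear_combination h
  rw [hz'] at hz
  have h2 : IsIntegral ℤ ((p : ℚ) / q) :=
    (isIntegral_algebraMap_iff (algebraMap ℚ ℂ).injective).mp hz
  obtain ⟨f, hf⟩ := IsIntegrallyClosed.isIntegral_iff.mp h2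
  refine ⟨f, ?_⟩
  rw [hz', ← hf]; simp

theorem dvd_aux (q l y z : ℤ) (h : l ^ 2 = q * l * y - q ^ 2 * z) : q ∣ l := by
  by_cases hl : l = 0
  · rw [hl]; exact dvd_zero q
  have hpos : 0 < Int.gcd q l := Int.gcd_pos_of_ne_zero_right _ hl
  obtain ⟨q', l', hcop, hq', hl'⟩ := Int.exists_gcd_one hpos
  obtain ⟨d, hd⟩ : ∃ d : ℤ, d = (Int.gcd q l : ℤ) := ⟨_, rfl⟩
  rw [← hd] at hq' hl'
  have hd0 : d ≠ 0 := by
    rw [hd]; exact_mod_cast hpos.ne'
  have hcop' : IsCoprime q' l' := Int.isCoprime_iff_gcd_eq_one.mpr hcop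
  have h2 : l' ^ 2 = q' * (l' * y - q' * z) := by
    have : d ^ 2 * l' ^ 2 = d ^ 2 * (q' * (l' * y - q' * z)) := by
      rw [hq', hl'] at h
      linear_combination h
    exact mul_left_cancel₀ (pow_ne_zero 2 hd0) this
  have h4 : q' ∣ 1 := by
    have h5 : IsCoprime q' (l' ^ 2) := hcop'.pow_right
    have h6 : q' ∣ 1 * l' ^ 2 := by rw [one_mul]; exact ⟨_, h2⟩
    exact h5.dvd_of_dvd_mul_right h6
  rw [hq', hl']
  exact mul_dvd_mul_right (h4.trans (one_dvd _)) d

/-- The analytic and arithmetic heart: the two halves of the image of a difference set in a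
generalized dihedral group. -/
theorem core (A B : α → ℤ) (hA : ∀ x, 0 ≤ A x) (hB : ∀ x, 0 ≤ B x) (l u n : ℤ)
    (hl : 1 ≤ l) (hn : 0 ≤ n)
    (h1 : ∀ g, ∑ y, A (y + g) * A y + ∑ y, B (y + g) * B y = (if g = 0 then n else 0) + l * u)
    (h2 : ∀ g, 2 * ∑ y, A y * B (g - y) = l * u)
    (hk : ∑ y, A y + ∑ y, B y = n + l) :
    n ≤ l ^ 2 ∨ (Fintype.card α : ℤ) ≤ 8 * l ^ 2 * (n + l) := by
  obtain ⟨a, ha⟩ : ∃ a : ℤ, a = ∑ y, A y := ⟨_, rfl⟩
  obtain ⟨b, hb⟩ : ∃ b : ℤ, b = ∑ y, B y := ⟨_, rfl⟩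
  obtain ⟨h, hh⟩ : ∃ h : ℤ, h = (Fintype.card α : ℤ) := ⟨_, rfl⟩
  obtain ⟨m, hm⟩ : ∃ m : ℤ, m = a - b := ⟨_, rfl⟩
  have hhpos : 0 < h := by rw [hh]; exact_mod_cast Fintype.card_pos
  have ha0 : 0 ≤ a := by rw [ha]; exact Finset.sum_nonneg fun x _ => hA x
  have hb0 : 0 ≤ b := by rw [hb]; exact Finset.sum_nonneg fun x _ => hB x
  -- counting identities
  have shift : ∀ (C E : α → ℤ), ∑ g, ∑ y, C (y + g) * E y = (∑ y, C y) * (∑ y, E y) := by
    intro C E
    rw [Finset.sum_comm, Finset.sum_mul_sum, Finset.sum_comm (s := univ) (t := univ)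
      (f := fun i j => C i * E j)]
    refine Finset.sum_congr rfl fun x _ => ?_
    exact Fintype.sum_equiv (Equiv.addLeft x) _ _ fun y => by simp
  have shift2 : ∑ g, ∑ y, A y * B (g - y) = a * b := by
    rw [Finset.sum_comm, ha, hb, Finset.sum_mul_sum]
    refine Finset.sum_congr rfl fun x _ => ?_
    exact Fintype.sum_equiv (Equiv.subRight x) _ _ fun y => by simp
  have F1 : 2 * (a * b) = l * u * h := by
    rw [← shift2, Finset.mul_sum, Finset.sum_congr rfl fun g _ => h2 g]
    simp [hh, mul_comm]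
  have F2 : a * a + b * b = n + l * u * h := by
    have := Finset.sum_congr (rfl : (univ : Finset α) = univ) fun g _ => h1 g
    rw [Finset.sum_add_distrib, Finset.sum_add_distrib, shift, shift, ← ha, ← hb] at this
    rw [this]
    simp [hh, mul_comm]
  have F3 : m ^ 2 = n := by rw [hm]; linear_combination F2 - F1
  by_cases hn0 : n = 0
  · left; rw [hn0]; positivity
  have hm0 : m ≠ 0 := by
    intro h0; apply hn0; rw [← F3, h0]; ring
  -- characters
  have P1 : ∀ ψ : AddChar α ℂ, ψ ≠ 0 → four A ψ * four B ψ = 0 := by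
    intro ψ hψ
    have e : (2 : ℂ) * (four A ψ * four B ψ) = 0 := by
      rw [four_mul, Finset.mul_sum]
      have : ∀ g : α, (2 : ℂ) * (((∑ y, A y * B (g - y) : ℤ) : ℂ) * ψ g)
          = ((l * u : ℤ) : ℂ) * ψ g := by
        intro g
        rw [← h2 g]; push_cast; ring
      rw [Finset.sum_congr rfl fun g _ => this g, ← Finset.mul_sum,
        AddChar.sum_eq_zero_iff_ne_zero.mpr hψ, mul_zero]
    simpa using e
  have P2 : ∀ ψ : AddChar α ℂ, ψ ≠ 0 →
      four A ψ * conj (four A ψ) + four B ψ * conj (four B ψ) = (n : ℂ) := by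
    intro ψ hψ
    rw [four_mul_conj, four_mul_conj, ← Finset.sum_add_distrib]
    have : ∀ g : α, ((∑ y, A (y + g) * A y : ℤ) : ℂ) * ψ g
        + ((∑ y, B (y + g) * B y : ℤ) : ℂ) * ψ g
        = (if g = 0 then (n : ℂ) else 0) * ψ g + ((l * u : ℤ) : ℂ) * ψ g := by
      intro g
      rw [← add_mul, ← add_mul, ← Int.cast_add, h1 g]
      push_cast
      split_ifs <;> simp
    rw [Finset.sum_congr rfl fun g _ => this g, Finset.sum_add_distrib, ← Finset.mul_sum,
      AddChar.sum_eq_zero_iff_ne_zero.mpr hψ]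
    simp
  have P3 : ∀ ψ : AddChar α ℂ, ψ ≠ 0 → four A ψ ≠ 0 → four A ψ * conj (four A ψ) = (n : ℂ) := by
    intro ψ hψ h0
    have hB0 : four B ψ = 0 := by
      rcases mul_eq_zero.mp (P1 ψ hψ) with h3 | h3
      · exact absurd h3 h0
      · exact h3
    have := P2 ψ hψ
    rwa [hB0, zero_mul, add_zero] at this
  classical
  obtain ⟨S, hS⟩ : ∃ S : Finset (AddChar α ℂ), S = univ.filter fun ψ => ψ ≠ 0 ∧ four A ψ ≠ 0 :=
    ⟨_, rfl⟩
  obtain ⟨R, hR⟩ : ∃ R : α → ℤ, R = fun g => ∑ y, A (y + g) * A y := ⟨_, rfl⟩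
  have Rfour : ∀ ψ : AddChar α ℂ, four R ψ = four A ψ * conj (four A ψ) := by
    intro ψ; rw [four_mul_conj, hR]; rfl
  have four0 : four A (0 : AddChar α ℂ) = (a : ℂ) := by
    simp [four, ha]
  have Fc : ∀ g, (n : ℂ) * ∑ ψ ∈ S, ψ (-g) = ((h * R g - a ^ 2 : ℤ) : ℂ) := by
    intro g
    have inv := inversion R g
    have split : ∀ ψ : AddChar α ℂ, four R ψ * ψ (-g)
        = (if ψ = 0 then (a : ℂ) ^ 2 else 0) + (if ψ ∈ S then (n : ℂ) * ψ (-g) else 0) := by
      intro ψ
      rw [Rfour]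
      by_cases hψ : ψ = 0
      · subst hψ
        have : (0 : AddChar α ℂ) ∉ S := by rw [hS]; simp
        rw [if_pos rfl, if_neg this, four0]
        simp; ring
      · rw [if_neg hψ, zero_add]
        by_cases h0 : four A ψ = 0
        · have : ψ ∉ S := by rw [hS]; simp [h0]
          rw [if_neg this, h0]; simp
        · have : ψ ∈ S := by rw [hS]; simp [h0, hψ]
          rw [if_pos this, P3 ψ hψ h0]
    rw [Finset.sum_congr rfl fun ψ _ => split ψ, Finset.sum_add_distrib] at inv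
    rw [Finset.mul_sum]
    have e1 : ∑ ψ : AddChar α ℂ, (if ψ = 0 then (a : ℂ) ^ 2 else 0) = (a : ℂ) ^ 2 := by simp
    have e2 : ∑ ψ : AddChar α ℂ, (if ψ ∈ S then (n : ℂ) * ψ (-g) else 0)
        = ∑ ψ ∈ S, (n : ℂ) * ψ (-g) := by
      rw [← Finset.sum_filter]; simp
    rw [e1, e2] at inv
    rw [hh]; push_cast
    linear_combination inv
  have Fint : ∀ g, ∃ f : ℤ, ∑ ψ ∈ S, ψ (-g) = (f : ℂ) := by
    intro g
    exact int_of_integral _ _ n (IsIntegral.sum _ fun ψ _ => integral_char ψ (-g)) hn0 (Fc g)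
  choose F hF using Fint
  have key : ∀ g, h * R g = a ^ 2 + n * F g := by
    intro g
    have := Fc g
    rw [hF g] at this
    have h3 : n * F g = h * R g - a ^ 2 := by exact_mod_cast this
    linear_combination -h3
  -- Parseval
  obtain ⟨s, hs⟩ : ∃ s : ℤ, s = (S.card : ℤ) := ⟨_, rfl⟩
  have F0 : F 0 = s := by
    have := hF 0
    simp only [neg_zero, AddChar.map_zero_eq_one, Finset.sum_const, nsmul_eq_mul, mul_one] at this
    rw [hs]; exact_mod_cast this.symm
  have pars : ∑ g, F g ^ 2 = h * s := by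
    have conjF : ∀ g, ∑ ψ ∈ S, ψ g = (F g : ℂ) := by
      intro g
      have := congrArg conj (hF g)
      rw [map_sum, map_intCast] at this
      rw [← this]
      refine Finset.sum_congr rfl fun ψ _ => ?_
      rw [← AddChar.map_neg_eq_conj, neg_neg]
    have e : ∑ g, (F g : ℂ) ^ 2 = ((h * s : ℤ) : ℂ) := by
      have e1 : ∀ g, (F g : ℂ) ^ 2 = ∑ ψ ∈ S, ∑ φ ∈ S, (ψ - φ) g := by
        intro g
        rw [sq]
        nth_rewrite 1 [← conjF g]
        rw [← hF g, Finset.sum_mul_sum]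
        refine Finset.sum_congr rfl fun ψ _ => Finset.sum_congr rfl fun φ _ => ?_
        rw [AddChar.sub_apply]
      rw [Finset.sum_congr rfl fun g _ => e1 g, Finset.sum_comm]
      have e2 : ∀ ψ ∈ S, ∑ g, ∑ φ ∈ S, (ψ - φ) g = (h : ℂ) := by
        intro ψ hψ
        rw [Finset.sum_comm]
        have e3 : ∀ φ ∈ S, ∑ g, (ψ - φ) g = if φ = ψ then (h : ℂ) else 0 := by
          intro φ _
          by_cases hφ : φ = ψ
          · subst hφ
            rw [if_pos rfl, sub_self, hh]
            simp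
          · rw [if_neg hφ]
            exact AddChar.sum_eq_zero_iff_ne_zero.mpr fun h0 => hφ (sub_eq_zero.mp h0).symm
        rw [Finset.sum_congr rfl e3, Finset.sum_ite_eq' S ψ, if_pos hψ]
      rw [Finset.sum_congr rfl e2, Finset.sum_const, nsmul_eq_mul, hs]
      push_cast; ring
    exact_mod_cast e
  have hs_le : s ≤ h - 1 := by
    have h3 : S ⊆ univ.erase 0 := by
      intro ψ hψ
      rw [hS] at hψ
      simp only [Finset.mem_filter] at hψ
      exact Finset.mem_erase.mpr ⟨hψ.2.1, Finset.mem_univ _⟩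
    have h4 := Finset.card_le_card h3
    rw [Finset.card_erase_of_mem (Finset.mem_univ _), Finset.card_univ, AddChar.card_eq] at h4
    have h5 : 0 < Fintype.card α := Fintype.card_pos
    rw [hs, hh]; omega
  have hs0 : 0 ≤ s := by rw [hs]; positivity
  -- trivial case
  by_cases hcase : h ≤ 1
  · right
    rw [← hh]
    have : 1 ≤ 8 * l ^ 2 * (n + l) := by nlinarith [sq_nonneg l]
    linarith
  push Not at hcase
  have hex : ∃ g, 4 * (h - 1) * F g ^ 2 ≤ h ^ 2 := by
    by_contra hcon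
    push Not at hcon
    have h3 : ∑ g ∈ univ.erase (0 : α), F g ^ 2 = h * s - s ^ 2 := by
      have := Finset.sum_erase_add univ (fun g => F g ^ 2) (Finset.mem_univ (0 : α))
      rw [pars, F0] at this
      linarith
    have h4 : ∑ g ∈ univ.erase (0 : α), h ^ 2 < ∑ g ∈ univ.erase (0 : α), 4 * (h - 1) * F g ^ 2 := by
      apply Finset.sum_lt_sum_of_nonempty
      · rw [← Finset.card_pos, Finset.card_erase_of_mem (Finset.mem_univ _), Finset.card_univ]
        rw [hh] at hcase
        have : 1 < Fintype.card α := by exact_mod_cast hcase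
        omega
      · intro g _; exact hcon g
    rw [← Finset.mul_sum, h3, Finset.sum_const, Finset.card_erase_of_mem (Finset.mem_univ _),
      Finset.card_univ, nsmul_eq_mul] at h4
    have h5 : ((Fintype.card α - 1 : ℕ) : ℤ) = h - 1 := by
      rw [hh]
      have : 0 < Fintype.card α := Fintype.card_pos
      omega
    rw [h5] at h4
    nlinarith [sq_nonneg (h - 2 * s)]
  obtain ⟨g, hg⟩ := hex
  -- arithmetic
  have e1 : h * (2 * R g - l * u) = 2 * m * (a + m * F g) := by
    have := key g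
    rw [← F3, hm] at this
    rw [hm]
    linear_combination 2 * this + F1
  have hab : a + b = m ^ 2 + l := by rw [ha, hb, F3, hk]
  have e2 : l ^ 2 = l * (2 * u * h - 2 * m ^ 2) - m ^ 2 * (m ^ 2 - 1) := by
    have e3 : (m ^ 2 + l) ^ 2 - m ^ 2 = 2 * (l * u * h) := by
      rw [← hab, ← F1, hm]; ring
    linear_combination e3
  have hqdvd : (Int.gcd h m : ℤ) ∣ l := by
    obtain ⟨h', hh'⟩ := Int.gcd_dvd_left (a := h) (b := m)
    obtain ⟨m', hm'⟩ := Int.gcd_dvd_right (a := h) (b := m)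
    refine dvd_aux _ l (2 * u * h' - 2 * (Int.gcd h m : ℤ) * m' ^ 2) (m' ^ 2 * (m ^ 2 - 1)) ?_
    rw [e2]
    have t1 : h = (Int.gcd h m : ℤ) * h' := hh'
    have t2 : m = (Int.gcd h m : ℤ) * m' := hm'
    have t3 : m ^ 2 = (Int.gcd h m : ℤ) ^ 2 * m' ^ 2 := by rw [← mul_pow, ← t2]
    linear_combination (2 * l * u) * t1 - (2 * l + (m ^ 2 - 1)) * t3
  have hdvd : h ∣ 2 * l * (a + m * F g) := by
    obtain ⟨x, hx⟩ := hqdvd
    have bez := Int.gcd_eq_gcd_ab h m
    refine ⟨2 * x * (Int.gcdA h m) * (a + m * F g) + x * (Int.gcdB h m) * (2 * R g - l * u), ?_⟩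
    have e4 : 2 * l * (a + m * F g)
        = 2 * ((h * Int.gcdA h m + m * Int.gcdB h m) * x) * (a + m * F g) := by
      rw [← bez, ← hx]
    rw [e4]
    linear_combination (-(x * Int.gcdB h m)) * e1
  by_cases hX : a + m * F g = 0
  · left
    have e5 : l = m * (-2 * F g - m - 1) := by
      have : 2 * a = m ^ 2 + l + m := by rw [← hab, hm]; ring
      linear_combination -this + 2 * hX
    have ht : (-2 * F g - m - 1) ≠ 0 := by
      intro h0; rw [h0, mul_zero] at e5; omega
    have ht2 : 1 ≤ (-2 * F g - m - 1) ^ 2 := by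
      have : 0 < (-2 * F g - m - 1) ^ 2 := by positivity
      omega
    calc n = m ^ 2 * 1 := by rw [mul_one, F3]
      _ ≤ m ^ 2 * (-2 * F g - m - 1) ^ 2 := mul_le_mul_of_nonneg_left ht2 (sq_nonneg m)
      _ = l ^ 2 := by rw [← mul_pow, ← e5]
  · right
    rw [← hh]
    by_contra hcon
    push Not at hcon
    have hk1 : a ≤ n + l := by rw [← F3]; linarith
    have hkn : 0 ≤ n + l := by linarith
    have h6 : 2 * F g ^ 2 ≤ h := by
      by_contra h7
      push Not at h7
      nlinarith [sq_nonneg (F g)]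
    have h8 : h ≤ |2 * l * (a + m * F g)| := by
      apply Int.le_of_dvd
      · exact abs_pos.mpr (mul_ne_zero (by omega) hX)
      · exact (dvd_abs _ _).mpr hdvd
    have h9 : 4 * l * |m * F g| < h := by
      have h10 : (4 * l * |m * F g|) ^ 2 < h ^ 2 := by
        have : (4 * l * |m * F g|) ^ 2 = 8 * l ^ 2 * (n * (2 * F g ^ 2)) := by
          rw [mul_pow, mul_pow, sq_abs, ← F3]; ring
        rw [this]
        have h11 : n * (2 * F g ^ 2) ≤ (n + l) * h := by
          calc n * (2 * F g ^ 2) ≤ n * h := mul_le_mul_of_nonneg_left h6 hn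
            _ ≤ (n + l) * h := mul_le_mul_of_nonneg_right (by linarith) hhpos.le
        calc 8 * l ^ 2 * (n * (2 * F g ^ 2)) ≤ 8 * l ^ 2 * ((n + l) * h) :=
              mul_le_mul_of_nonneg_left h11 (by positivity)
          _ = (8 * l ^ 2 * (n + l)) * h := by ring
          _ < h * h := mul_lt_mul_of_pos_right hcon hhpos
          _ = h ^ 2 := by ring
      exact lt_of_pow_lt_pow_left₀ 2 hhpos.le h10
    have h12 : |2 * l * (a + m * F g)| ≤ 2 * l * a + 2 * l * |m * F g| := by
      rw [abs_mul, abs_of_nonneg (by positivity : (0 : ℤ) ≤ 2 * l)]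
      have : |a + m * F g| ≤ a + |m * F g| := by
        calc |a + m * F g| ≤ |a| + |m * F g| := abs_add_le _ _
          _ = a + |m * F g| := by rw [abs_of_nonneg ha0]
      nlinarith
    have h13 : 8 * (l * a) ≤ 8 * l ^ 2 * (n + l) := by
      have h14 : l * a ≤ l * (n + l) := mul_le_mul_of_nonneg_left hk1 (by omega)
      have h15 : l * (n + l) ≤ l ^ 2 * (n + l) := by
        apply mul_le_mul_of_nonneg_right _ hkn
        nlinarith
      linarith
    linarith

end Core

/-- `core` for a multiplicatively written group. -/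
theorem core_mul {κ : Type*} [CommGroup κ] [Fintype κ] [DecidableEq κ] (A B : κ → ℤ)
    (hA : ∀ x, 0 ≤ A x) (hB : ∀ x, 0 ≤ B x) (l u n : ℤ) (hl : 1 ≤ l) (hn : 0 ≤ n)
    (h1 : ∀ g, ∑ y, A (y * g) * A y + ∑ y, B (y * g) * B y = (if g = 1 then n else 0) + l * u)
    (h2 : ∀ g, 2 * ∑ y, A y * B (g / y) = l * u)
    (hk : ∑ y, A y + ∑ y, B y = n + l) :
    n ≤ l ^ 2 ∨ (Fintype.card κ : ℤ) ≤ 8 * l ^ 2 * (n + l) :=
  by
  have hc : Fintype.card κ = Fintype.card (Additive κ) :=
    Fintype.card_congr Additive.ofMul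
  rw [hc]
  refine core (α := Additive κ) (fun x => A x.toMul) (fun x => B x.toMul) (fun x => hA _)
    (fun x => hB _) l u n hl hn (fun g => ?_) (fun g => ?_) ?_
  · have e : (g = 0) ↔ (g.toMul = 1) := Iff.rfl
    simp only [e]
    rw [← h1 g.toMul]
    congr 1 <;> exact Fintype.sum_equiv Additive.toMul _ _ fun y => rfl
  · rw [← h2 g.toMul]
    congr 1
    exact Fintype.sum_equiv Additive.toMul _ _ fun y => rfl
  · rw [← hk]
    congr 1 <;> exact Fintype.sum_equiv Additive.toMul _ _ fun y => rfl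

section Group

variable {Q : Type*} [Group Q] [Fintype Q] [DecidableEq Q]

omit [Fintype Q] [DecidableEq Q] in
theorem comm_of_inv (K : Subgroup Q) (hinv : ∀ t, t ∉ K → t * t = 1)
    (τ : Q) (hτ : τ ∉ K) : ∀ x ∈ K, τ * x * τ = x⁻¹ := by
  intro x hx
  have hxτ : x * τ ∉ K := fun h => hτ ((Subgroup.mul_mem_cancel_left K hx).mp h)
  have h1 := hinv _ hxτ
  rw [eq_inv_iff_mul_eq_one]
  have h2 := hinv _ hτ
  have h3 : τ⁻¹ = τ := inv_eq_of_mul_eq_one_left h2
  calc τ * x * τ * x = x⁻¹ * (x * τ * (x * τ)) * x := by group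
    _ = 1 := by rw [h1]; group

omit [Fintype Q] [DecidableEq Q] in
theorem mul_comm_of_inv (K : Subgroup Q) (hinv : ∀ t, t ∉ K → t * t = 1)
    (τ : Q) (hτ : τ ∉ K) (x y : Q) (hx : x ∈ K) (hy : y ∈ K) : x * y = y * x := by
  have h0 := comm_of_inv K hinv τ hτ
  have h2 := hinv _ hτ
  have h3 := h0 _ (K.mul_mem hx hy)
  have h4 : τ * (x * y) * τ = (τ * x * τ) * (τ * y * τ) := by
    calc τ * (x * y) * τ = τ * x * 1 * y * τ := by group
      _ = τ * x * (τ * τ) * y * τ := by rw [h2]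
      _ = (τ * x * τ) * (τ * y * τ) := by group
  rw [h4, h0 x hx, h0 y hy] at h3
  have h5 := congrArg (·⁻¹) h3
  simp only [mul_inv_rev, inv_inv] at h5
  exact h5.symm

omit [DecidableEq Q] in
theorem sum_split (K : Subgroup Q) [Fintype K] (hK : K.index = 2) (τ : Q) (hτ : τ ∉ K) (f : Q → ℤ) :
    ∑ q, f q = ∑ x : K, f x + ∑ x : K, f (x * τ) := by
  classical
  have hτ' : τ⁻¹ ∉ K := fun h => hτ (by simpa using K.inv_mem h)
  have hmem : ∀ x : K, ¬ (x : Q) * τ ∈ K := fun x h =>
    hτ ((Subgroup.mul_mem_cancel_left K x.2).mp h)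
  have h1 : ∑ x : K, f (x * τ) = ∑ x : {q : Q // ¬ q ∈ K}, f x := by
    refine Fintype.sum_bijective (fun x : K => (⟨(x : Q) * τ, hmem x⟩ : {q : Q // ¬ q ∈ K}))
      ⟨?_, ?_⟩ _ _ fun x => rfl
    · intro x y hxy
      have h2 : (x : Q) * τ = (y : Q) * τ := congrArg Subtype.val hxy
      exact Subtype.ext (mul_right_cancel h2)
    · rintro ⟨q, hq⟩
      refine ⟨⟨q * τ⁻¹, (Subgroup.mul_mem_iff_of_index_two hK).mpr (by simp [hq, hτ'])⟩, ?_⟩
      exact Subtype.ext (by simp)
  have h3 : ∑ x ∈ univ.filter (fun q : Q => q ∈ K), f x = ∑ x : K, f x :=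
    Finset.sum_subtype _ (fun x => by simp) f
  have h5 : ∑ x ∈ univ.filter (fun q : Q => ¬ q ∈ K), f x = ∑ x : {q : Q // ¬ q ∈ K}, f x :=
    Finset.sum_subtype _ (fun x => by simp) f
  rw [h1, ← h3, ← h5, Finset.sum_filter_add_sum_filter_not]

/-- The statement for a group with a subgroup of index two all of whose non-members are
involutions, and a weight function on it. -/
theorem weighted (K : Subgroup Q) (hK : K.index = 2) (hinv : ∀ t, t ∉ K → t * t = 1)
    (w : Q → ℤ) (hw : ∀ q, 0 ≤ w q) (l u n : ℤ) (hl : 1 ≤ l) (hn : 0 ≤ n)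
    (hR : ∀ q, ∑ p, w (q * p) * w p = (if q = 1 then n else 0) + l * u)
    (hk : ∑ p, w p = n + l) :
    n ≤ l ^ 2 ∨ (Nat.card K : ℤ) ≤ 8 * l ^ 2 * (n + l) := by
  classical
  obtain ⟨τ, hτ⟩ : ∃ τ, τ ∉ K := by
    by_contra hcon
    push Not at hcon
    have : K = ⊤ := (Subgroup.eq_top_iff' K).mpr hcon
    rw [this, Subgroup.index_top] at hK
    omega
  have hconj := comm_of_inv K hinv τ hτ
  have hττ := hinv τ hτ
  let _ : CommGroup K :=
    { (inferInstance : Group K) with
      mul_comm := fun x y =>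
        Subtype.ext (mul_comm_of_inv K hinv τ hτ x.1 y.1 x.2 y.2) }
  have hcard : (Nat.card K : ℤ) = (Fintype.card K : ℤ) := by rw [Nat.card_eq_fintype_card]
  rw [hcard]
  have hτx : ∀ x : K, τ * (x : Q) = ((x⁻¹ : K) : Q) * τ := by
    intro x
    have h1 := hconj x.1 x.2
    have h3 : τ⁻¹ = τ := inv_eq_of_mul_eq_one_left hττ
    calc τ * (x : Q) = (τ * x * τ) * τ⁻¹ := by group
      _ = _ := by rw [h1, h3]; rfl
  refine core_mul (fun x : K => w x) (fun x : K => w (x * τ)) (fun x => hw _) (fun x => hw _)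
    l u n hl hn ?_ ?_ ?_
  · intro g
    have h1 := hR g
    rw [sum_split K hK τ hτ] at h1
    have h2 : ((g : Q) = 1) ↔ (g = 1) := by simp
    simp only [h2] at h1
    rw [← h1]
    congr 1
    · refine Finset.sum_congr rfl fun y _ => ?_
      have : ((y * g : K) : Q) = (g : Q) * y := by rw [mul_comm y g]; rfl
      rw [this]
    · refine Finset.sum_congr rfl fun y _ => ?_
      have : ((y * g : K) : Q) = (g : Q) * y := by rw [mul_comm y g]; rfl
      rw [this, mul_assoc]
  · intro g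
    have h1 := hR ((g : Q) * τ)
    have hne : (g : Q) * τ ≠ 1 := by
      intro h0
      apply hτ
      have : τ = (g : Q)⁻¹ := eq_inv_of_mul_eq_one_right h0
      rw [this]; exact K.inv_mem g.2
    rw [if_neg hne, zero_add, sum_split K hK τ hτ] at h1
    have e1 : ∀ y : K, w ((g : Q) * τ * y) * w y
        = w (y : Q) * w (((g / y : K) : Q) * τ) := by
      intro y
      have : (g : Q) * τ * y = ((g / y : K) : Q) * τ := by
        rw [mul_assoc, hτx y, ← mul_assoc, div_eq_mul_inv]; rfl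
      rw [this, mul_comm]
    have e2 : ∀ y : K, w ((g : Q) * τ * (y * τ)) * w ((y : Q) * τ)
        = w ((g / y : K) : Q) * w ((y : Q) * τ) := by
      intro y
      have : (g : Q) * τ * (y * τ) = ((g / y : K) : Q) := by
        have h4 : (g : Q) * τ * (y * τ) = (g : Q) * (τ * y) * τ := by group
        rw [h4, hτx y, ← mul_assoc, mul_assoc _ τ τ, hττ, mul_one, div_eq_mul_inv]; rfl
      rw [this]
    rw [Finset.sum_congr rfl fun y _ => e1 y, Finset.sum_congr rfl fun y _ => e2 y] at h1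
    have e3 : ∑ y : K, w ((g / y : K) : Q) * w ((y : Q) * τ)
        = ∑ y : K, w (y : Q) * w (((g / y : K) : Q) * τ) := by
      refine Fintype.sum_equiv (Equiv.divLeft g) _ _ fun y => ?_
      simp
    rw [e3] at h1
    linarith
  · rw [← hk, sum_split K hK τ hτ]

end Group

/-- The number of representations of `g` as `a * b⁻¹` with `a, b ∈ D`. -/
def rep {G : Type*} [Group G] [DecidableEq G] (D : Finset G) (g : G) : ℕ :=
  ((D ×ˢ D).filter (fun p => p.1 * p.2⁻¹ = g)).card

theorem rep_one {G : Type*} [Group G] [DecidableEq G] (D : Finset G) : rep D 1 = D.card := by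
  unfold rep
  symm
  apply Finset.card_bij (fun d _ => (d, d))
  · intro d hd; simp [hd]
  · intro d _ e _ h; exact (Prod.mk.inj h).1
  · rintro ⟨d, e⟩ h
    simp only [Finset.mem_filter, Finset.mem_product] at h
    have : d = e := mul_inv_eq_one.mp h.2
    exact ⟨d, h.1.1, by rw [← this]⟩

theorem card_fiber {G : Type*} [Group G] [Fintype G] (N : Subgroup G) [N.Normal]
    [DecidableEq (G ⧸ N)] (q : G ⧸ N) :
    (univ.filter (fun g => QuotientGroup.mk' N g = q)).card = Nat.card N := by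
  classical
  have h1 := QuotientGroup.card_preimage_mk N {q}
  have h0 : Nat.card ({q} : Set (G ⧸ N)) = 1 := by simp
  rw [h0, mul_one] at h1
  rw [← h1, Nat.card_eq_card_toFinset]
  congr 1
  ext g
  rw [Set.mem_toFinset, Finset.mem_filter]
  exact ⟨fun h => h.2, fun h => ⟨Finset.mem_univ _, h⟩⟩

theorem sum_rep {G : Type*} [Group G] [Fintype G] [DecidableEq G] (D : Finset G)
    {Q : Type*} [Group Q] [Fintype Q] [DecidableEq Q] (π : G →* Q) (q : Q) :
    ∑ p, (D.filter fun d => π d = q * p).card * (D.filter fun d => π d = p).card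
      = ∑ g ∈ univ.filter (fun g => π g = q), rep D g := by
  have h1 : ∑ g ∈ univ.filter (fun g => π g = q), rep D g
      = ((D ×ˢ D).filter fun x => π (x.1 * x.2⁻¹) = q).card := by
    rw [Finset.card_eq_sum_card_fiberwise (f := fun x : G × G => x.1 * x.2⁻¹)
      (t := univ.filter (fun g => π g = q))]
    · refine Finset.sum_congr rfl fun g hg => ?_
      unfold rep
      congr 1
      ext x
      simp only [Finset.mem_filter, Finset.mem_univ, true_and] at hg ⊢
      constructor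
      · rintro ⟨h2, h3⟩; exact ⟨⟨h2, by rw [h3]; exact hg⟩, h3⟩
      · rintro ⟨⟨h2, _⟩, h3⟩; exact ⟨h2, h3⟩
    · intro x hx
      simp only [Finset.coe_filter, Set.mem_ofPred_eq, Finset.mem_univ, true_and] at hx ⊢
      exact hx.2
  have h2 : ((D ×ˢ D).filter fun x => π (x.1 * x.2⁻¹) = q).card
      = ∑ p, (((D ×ˢ D).filter fun x => π (x.1 * x.2⁻¹) = q).filter fun x => π x.2 = p).card :=
    Finset.card_eq_sum_card_fiberwise (f := fun x : G × G => π x.2) (t := univ)
      (fun x _ => by simp)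
  rw [h1, h2]
  refine Finset.sum_congr rfl fun p _ => ?_
  rw [← Finset.card_product]
  congr 1
  ext ⟨x, y⟩
  simp only [Finset.mem_product, Finset.mem_filter, map_mul, map_inv]
  constructor
  · rintro ⟨⟨hx, h3⟩, hy, h4⟩
    exact ⟨⟨⟨hx, hy⟩, by rw [h3, h4]; group⟩, h4⟩
  · rintro ⟨⟨⟨hx, hy⟩, h3⟩, h4⟩
    refine ⟨⟨hx, ?_⟩, hy, h4⟩
    rw [h4] at h3
    rw [← h3]; group

/-- **Difference sets and generalized dihedral quotients.** Let `D` be a `(v,k,l)` difference set
in `G`, `l ≥ 1`, and let `N ≤ H ≤ G` with `N` normal in `G`, `H` of index two, and `t ^ 2 ∈ N`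
for all `t` outside `H`. Then `v ≤ l ^ 2 (l + 2)`, or the order of `G / N` is at most
`16 l ^ 2 k` and less than `(512 l ^ 5 v) ^ (1/2)`. -/
theorem result (l : ℕ) (hl : 1 ≤ l) {G : Type*} [Group G] [Fintype G] [DecidableEq G]
    (D : Finset G)
    (hD : ∀ g : G, g ≠ 1 → ((D ×ˢ D).filter (fun p => p.1 * p.2⁻¹ = g)).card = l)
    (H N : Subgroup G) [N.Normal] (hNH : N ≤ H) (hH : H.index = 2)
    (hinv : ∀ t, t ∉ H → t ^ 2 ∈ N) :
    Fintype.card G ≤ l ^ 2 * (l + 2) ∨
      (N.index ≤ 16 * l ^ 2 * D.card ∧ N.index ^ 2 < 512 * l ^ 5 * Fintype.card G) := by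
  classical
  have hrep : ∀ g : G, rep D g = if g = 1 then D.card else l := by
    intro g
    by_cases hg : g = 1
    · rw [if_pos hg, hg]; exact rep_one D
    · rw [if_neg hg]; exact hD g hg
  -- parameters
  have hcount : D.card * D.card = D.card + l * (Fintype.card G - 1) := by
    have h2 : ∑ g : G, rep D g = D.card * D.card := by
      rw [← Finset.card_product]
      unfold rep
      exact (Finset.card_eq_sum_card_fiberwise (f := fun x : G × G => x.1 * x.2⁻¹)
        (t := univ) (fun x _ => by simp)).symm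
    rw [← h2, Finset.sum_congr rfl fun g _ => hrep g,
      ← Finset.sum_erase_add _ _ (Finset.mem_univ (1 : G)), if_pos rfl, add_comm]
    congr 1
    rw [Finset.sum_congr rfl (fun g hg => if_neg (Finset.ne_of_mem_erase hg)), Finset.sum_const,
      Finset.card_erase_of_mem (Finset.mem_univ _), Finset.card_univ, smul_eq_mul, mul_comm]
  obtain ⟨k, hk⟩ : ∃ k : ℤ, k = (D.card : ℤ) := ⟨_, rfl⟩
  obtain ⟨v, hv⟩ : ∃ v : ℤ, v = (Fintype.card G : ℤ) := ⟨_, rfl⟩
  obtain ⟨lz, hlz⟩ : ∃ lz : ℤ, lz = (l : ℤ) := ⟨_, rfl⟩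
  have hl1 : 1 ≤ lz := by rw [hlz]; exact_mod_cast hl
  have hk0 : 0 ≤ k := by rw [hk]; positivity
  have hv1 : 1 ≤ v := by
    rw [hv]
    have : 0 < Fintype.card G := Fintype.card_pos
    omega
  have hcz : k * k = k + lz * (v - 1) := by
    rw [hk, hv, hlz]
    have : 0 < Fintype.card G := Fintype.card_pos
    zify [Nat.one_le_iff_ne_zero.mpr this.ne'] at hcount
    exact hcount
  have hkv : k ≤ v := by
    rw [hk, hv]; exact_mod_cast Finset.card_le_univ D
  have hv2 : 2 ≤ v := by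
    have h1 : (2 : ℕ) ∣ Fintype.card G := by
      rw [← hH, ← Nat.card_eq_fintype_card]; exact H.index_dvd_card
    have h2 := Nat.le_of_dvd Fintype.card_pos h1
    rw [hv]; exact_mod_cast h2
  have hk2 : 2 ≤ k := by
    by_contra hcon
    push Not at hcon
    have h3 : k = 0 ∨ k = 1 := by omega
    rcases h3 with h3 | h3 <;> rw [h3] at hcz <;> nlinarith
  have hkl : lz ≤ k := by
    by_contra hcon
    push Not at hcon
    nlinarith
  obtain ⟨n, hn⟩ : ∃ n : ℤ, n = k - lz := ⟨_, rfl⟩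
  -- pass to the quotient
  have : Fintype (G ⧸ N) := Fintype.ofFinite _
  have hsurj : Function.Surjective (QuotientGroup.mk' N) := QuotientGroup.mk'_surjective N
  have hcomap : (H.map (QuotientGroup.mk' N)).comap (QuotientGroup.mk' N) = H :=
    Subgroup.comap_map_eq_self (by rw [QuotientGroup.ker_mk']; exact hNH)
  have hKidx : (H.map (QuotientGroup.mk' N)).index = 2 := by
    rw [← Subgroup.index_comap_of_surjective _ hsurj, hcomap, hH]
  have hKinv : ∀ t, t ∉ H.map (QuotientGroup.mk' N) → t * t = 1 := by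
    intro t ht
    obtain ⟨g, rfl⟩ := hsurj t
    have hg : g ∉ H := fun h => ht (Subgroup.mem_map_of_mem _ h)
    rw [← map_mul, ← sq]
    exact (QuotientGroup.eq_one_iff _).mpr (hinv g hg)
  have main := weighted (H.map (QuotientGroup.mk' N)) hKidx hKinv
    (fun q => ((D.filter fun d => QuotientGroup.mk' N d = q).card : ℤ))
    (fun q => by positivity) lz (Nat.card N : ℤ) n hl1 (by rw [hn]; linarith) ?_ ?_
  rotate_left
  · intro q
    have h1 := sum_rep D (QuotientGroup.mk' N) q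
    have h2 : ∑ g ∈ univ.filter (fun g => QuotientGroup.mk' N g = q), (rep D g : ℤ)
        = (if q = 1 then n else 0) + lz * (Nat.card N : ℤ) := by
      have h3 : ∀ g : G, (rep D g : ℤ) = (if g = 1 then n else 0) + lz := by
        intro g
        rw [hrep g]
        split_ifs
        · rw [hn, hk]; ring
        · rw [hlz]; ring
      rw [Finset.sum_congr rfl fun g _ => h3 g, Finset.sum_add_distrib, Finset.sum_const,
        card_fiber, nsmul_eq_mul, mul_comm lz]
      congr 1
      rw [Finset.sum_ite_eq']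
      simp only [Finset.mem_filter, Finset.mem_univ, true_and, map_one, eq_comm (a := q)]
    rw [← h2]
    exact_mod_cast h1
  · have h1 : D.card = ∑ q, (D.filter fun d => QuotientGroup.mk' N d = q).card :=
      Finset.card_eq_sum_card_fiberwise (fun x _ => by simp)
    rw [hn, hk, h1]
    push_cast; ring
  have hidx : (N.index : ℤ) = 2 * (Nat.card (H.map (QuotientGroup.mk' N)) : ℤ) := by
    have h1 := (H.map (QuotientGroup.mk' N)).index_mul_card
    rw [hKidx] at h1
    have h2 : N.index = Nat.card (G ⧸ N) := rfl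
    rw [h2, ← h1]; push_cast; ring
  have hnl : n + lz = k := by rw [hn]; ring
  rw [hnl] at main
  rcases main with main | main
  · left
    have h4 : k ≤ lz ^ 2 + lz := by linarith
    have h5 : v ≤ lz ^ 2 * (lz + 2) := by
      have h6 : k * (k - 1) ≤ (lz ^ 2 + lz) * (lz ^ 2 + lz - 1) :=
        mul_le_mul h4 (by linarith) (by linarith) (by positivity)
      have h7 : lz * v ≤ lz * (lz ^ 2 * (lz + 2)) := by nlinarith
      exact le_of_mul_le_mul_left h7 (by linarith)
    rw [hv, hlz] at h5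
    exact_mod_cast h5
  · right
    have h4 : (N.index : ℤ) ≤ 16 * lz ^ 2 * k := by rw [hidx]; linarith
    constructor
    · rw [hlz, hk] at h4; exact_mod_cast h4
    · have h5 : (N.index : ℤ) ^ 2 ≤ (16 * lz ^ 2 * k) ^ 2 :=
        pow_le_pow_left₀ (by positivity) h4 2
      have h6 : k ^ 2 < 2 * lz * v := by nlinarith
      have h7 : (N.index : ℤ) ^ 2 < 512 * lz ^ 5 * v := by
        have h8 : 256 * lz ^ 4 * k ^ 2 < 256 * lz ^ 4 * (2 * lz * v) :=
          mul_lt_mul_of_pos_left h6 (by positivity)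
        calc (N.index : ℤ) ^ 2 ≤ (16 * lz ^ 2 * k) ^ 2 := h5
          _ = 256 * lz ^ 4 * k ^ 2 := by ring
          _ < 256 * lz ^ 4 * (2 * lz * v) := h8
          _ = 512 * lz ^ 5 * v := by ring
      rw [hlz, hv] at h7
      exact_mod_cast h7

/-- In particular, a generalized dihedral group carrying a `(v,k,l)` difference set has
`v < 512 l ^ 5`. -/
theorem generalized_dihedral (l : ℕ) (hl : 1 ≤ l) {G : Type*} [Group G] [Fintype G]
    [DecidableEq G] (D : Finset G)
    (hD : ∀ g : G, g ≠ 1 → ((D ×ˢ D).filter (fun p => p.1 * p.2⁻¹ = g)).card = l)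
    (H : Subgroup G) (hH : H.index = 2) (hinv : ∀ t, t ∉ H → t ^ 2 = 1) :
    Fintype.card G < 512 * l ^ 5 := by
  have h := result l hl D hD H ⊥ bot_le hH (fun t ht => by simpa using hinv t ht)
  rw [Subgroup.index_bot, Nat.card_eq_fintype_card] at h
  have hpos : 0 < Fintype.card G := Fintype.card_pos
  rcases h with h | ⟨_, h⟩
  · have h1 : l ^ 2 * (l + 2) < 512 * l ^ 5 := by
      have h2 : 1 ≤ l ^ 2 := Nat.one_le_pow _ _ hl
      have h3 : l + 2 ≤ 3 * l := by omega
      have h5 : 0 < l ^ 3 := by positivity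
      calc l ^ 2 * (l + 2) ≤ l ^ 2 * (3 * l) := Nat.mul_le_mul_left _ h3
        _ = 3 * l ^ 3 * 1 := by ring
        _ ≤ 3 * l ^ 3 * l ^ 2 := Nat.mul_le_mul_left _ h2
        _ = 3 * l ^ 5 := by ring
        _ < 512 * l ^ 5 := by
            have : 0 < l ^ 5 := by positivity
            omega
    omega
  · have h1 : Fintype.card G * Fintype.card G < 512 * l ^ 5 * Fintype.card G := by
      rw [← sq]; exact h
    exact lt_of_mul_lt_mul_right h1 (Nat.zero_le _)

end Pool.Agent.Results.MP_706923_co.DihedralQuotient
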