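import Pool.Agent.Lib.MP_706923_coQ.Bad
import Pool.Agent.Lib.MP_706923_coQ.Cnt
import Pool.Agent.Lib.MP_706923_coQ.Cov
import Pool.Agent.Lib.MP_706923_coQ.Cvg
import Pool.Agent.Lib.MP_706923_coQ.Dec
import Pool.Agent.Lib.MP_706923_coQ.Ds
import Pool.Agent.Lib.MP_706923_coQ.Ea
import Pool.Agent.Lib.MP_706923_coQ.Eb
import Pool.Agent.Lib.MP_706923_coQ.FxB
import Pool.Agent.Lib.MP_706923_coQ.FxC
import Pool.Agent.Lib.MP_706923_coQ.Kil
import Pool.Agent.Lib.MP_706923_coQ.Leg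
import Pool.Agent.Lib.MP_706923_coQ.Main
import Pool.Agent.Lib.MP_706923_coQ.Mj
import Pool.Agent.Lib.MP_706923_coQ.Mr
import Pool.Agent.Lib.MP_706923_coQ.Nj
import Pool.Agent.Lib.MP_706923_coQ.Om
import Pool.Agent.Lib.MP_706923_coQ.Per
import Pool.Agent.Lib.MP_706923_coQ.Rec
import Pool.Agent.Lib.MP_706923_coQ.Roots
import Pool.Agent.Lib.MP_706923_coQ.Rt
import Pool.Agent.Lib.MP_706923_coQ.SumS
import Pool.Agent.Lib.MP_706923_coQ.Sv
import Pool.Agent.Lib.MP_706923_coQ.Asy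
import Pool.Agent.Lib.MP_706923_coQ.Wt

/-!
# MP_706923_co: for fixed lambda difference sets are rare, quantitatively

For fixed `l ≥ 1` and every `ε > 0` there are at most `C x / (log x)^(1-ε)` numbers `k ≤ x` such that
some finite group (abelian or not) contains a `(v,k,l)` difference set, and at most
`C √x / (log x)^(1-ε)` group orders `v ≤ x`.  If `l` is not a square the exponent is `9/8 - ε`,
and the sum of `1/k` over all such `k` converges.
-/

set_option autoImplicit false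

namespace Pool.Agent.Results.MP_706923_co.LogSparse

open Finset Pool.Agent.Lib.MP_706923_co Pool.Agent.Lib.MP_706923_coQ

/-- Some finite group of order `v` (abelian or not) contains a `(v,k,l)` difference set. -/
def HasDS (v k l : ℕ) : Prop :=
  ∃ (G : Type) (_ : Group G) (_ : Fintype G) (_ : DecidableEq G) (D : Finset G),
    Fintype.card G = v ∧ D.card = k ∧
      ∀ g : G, g ≠ 1 → ((D ×ˢ D).filter (fun p => p.1 * p.2⁻¹ = g)).card = l

private theorem mainAll : S_Main := by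
  have hLeg := tLeg
  have hRec := tRec hLeg
  have hOm := tOm hLeg hRec tRt tRoots
  have hNj := tNj
  have hPer := tPer hNj
  have hMr := tMr
  have hMj := tMj hNj
  have hBad := tBad hPer hMr
  have hCnt := tCnt hOm tSv
  have hFxB := tFxB hMr hMj
  have hFxC := tFxC hMr hMj
  have hKil := tKil hMr hMj
  have hWt := tWt hMr hFxB hFxC hKil
  have hCov := tCov tDs hCnt hWt (tSumS hMr) tEa (tEb hBad) tDec
  exact tMain hCov tAsy

private lemma isK_iff (l k : ℕ) : IsK l k ↔ ∃ v, HasDS v k l := by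
  constructor
  · rintro ⟨G, i1, i2, i3, D, hk, hD⟩
    exact ⟨Fintype.card G, G, i1, i2, i3, D, rfl, hk, hD⟩
  · rintro ⟨v, G, i1, i2, i3, D, _, hk, hD⟩
    exact ⟨G, i1, i2, i3, D, hk, hD⟩

private lemma isK_one (l : ℕ) : IsK l 1 := by
  refine ⟨Multiplicative (Fin 1), inferInstance, inferInstance, inferInstance, Finset.univ, by simp,
    ?_⟩
  intro g hg
  exact absurd (Subsingleton.elim g 1) hg

open Classical in
private lemma card_k (l x : ℕ) :
    Nat.card {k : ℕ // 1 ≤ k ∧ k ≤ x ∧ ∃ v, HasDS v k l} =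
      ((Icc 1 x).filter fun k => IsK l k).card := by
  refine Nat.subtype_card _ fun k => ?_
  rw [mem_filter, mem_Icc, isK_iff, and_assoc]

private lemma exk {l v k x : ℕ} (hl : 1 ≤ l) (hvx : v ≤ x) (h : HasDS v k l) :
    ∃ m : ℕ, (1 ≤ m ∧ m ≤ Nat.sqrt (l * x) + 1 ∧ ∃ w, HasDS w m l) ∧
      (m : ℤ) ^ 2 - m + l = l * v := by
  obtain ⟨G, i1, i2, i3, D, hcard, hk, hD⟩ := h
  have hid := ds_identity D l hD
  rw [hcard, hk] at hid
  have h7 : 1 ≤ v := by rw [← hcard]; exact Fintype.card_pos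
  rcases Nat.eq_zero_or_pos k with h0 | hpos
  · refine ⟨1, ⟨le_refl _, by omega, (isK_iff l 1).1 (isK_one l)⟩, ?_⟩
    rw [h0] at hid
    push_cast at hid ⊢
    linarith
  · refine ⟨k, ⟨hpos, ?_, v, G, i1, i2, i3, D, hcard, hk, hD⟩, hid⟩
    obtain ⟨m, hm⟩ := Nat.exists_eq_add_of_le hpos
    have h1 : m ^ 2 ≤ l * x := by
      have h2 : ((m : ℤ)) ^ 2 ≤ l * x := by
        rw [hm] at hid
        push_cast at hid
        have h3 : (l : ℤ) * v ≤ l * x := by
          have : (v : ℤ) ≤ x := by exact_mod_cast hvx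
          exact mul_le_mul_of_nonneg_left this (Int.natCast_nonneg l)
        have h4 : (0 : ℤ) ≤ m := Int.natCast_nonneg m
        have h6 : (1 : ℤ) ≤ l := by exact_mod_cast hl
        nlinarith
      exact_mod_cast h2
    have h2 : m ≤ Nat.sqrt (l * x) := Nat.le_sqrt'.mpr h1
    omega

open Classical in
private lemma vbound {l : ℕ} (hl : 1 ≤ l) {e C : ℝ} (he : 0 ≤ e) (hC : 0 < C)
    (h : ∀ y : ℕ, 2 ≤ y → ((((Icc 1 y).filter fun k => IsK l k).card : ℕ) : ℝ) ≤
      C * y / Real.log y ^ e) (x : ℕ) (hx : 2 ≤ x) :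
    (Nat.card {v : ℕ // v ≤ x ∧ ∃ k, HasDS v k l} : ℝ) ≤
      (2 * Real.sqrt l * 2 ^ e * C) * Real.sqrt x / Real.log x ^ e := by
  have hlR : (1 : ℝ) ≤ l := by exact_mod_cast hl
  have hxR : (2 : ℝ) ≤ x := by exact_mod_cast hx
  set y : ℕ := Nat.sqrt (l * x) + 1 with hy
  have hlx : 1 ≤ l * x := Nat.mul_pos (by omega) (by omega)
  have hs1 : 1 ≤ Nat.sqrt (l * x) := Nat.le_sqrt'.mpr (by simpa using hlx)
  have hy2 : 2 ≤ y := by omega
  have hex : ∀ w : {v : ℕ // v ≤ x ∧ ∃ k, HasDS v k l},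
      ∃ m : {m : ℕ // 1 ≤ m ∧ m ≤ y ∧ ∃ w, HasDS w m l}, ((m.1 : ℕ) : ℤ) ^ 2 - m.1 + l = l * w.1 := by
    rintro ⟨v, hv, k, hk⟩
    obtain ⟨m, hm, hm2⟩ := exk hl hv hk
    exact ⟨⟨m, hm⟩, hm2⟩
  choose φ hφ using hex
  have hinj : Function.Injective φ := by
    intro a b hab
    have h1 := hφ a
    have h2 := hφ b
    rw [hab] at h1
    have h3 : (l : ℤ) * a.1 = l * b.1 := by rw [← h1, ← h2]
    have hl0 : (l : ℤ) ≠ 0 := by
      have : l ≠ 0 := by omega
      exact_mod_cast this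
    have h4 : (a.1 : ℤ) = b.1 := mul_left_cancel₀ hl0 h3
    exact Subtype.ext (by exact_mod_cast h4)
  have hfin : Finite {m : ℕ // 1 ≤ m ∧ m ≤ y ∧ ∃ w, HasDS w m l} :=
    Set.Finite.subset (Set.finite_le_nat y) (fun _ hm => hm.2.1)
  have h1 := Nat.card_le_card_of_injective φ hinj
  rw [card_k] at h1
  have h2 : (Nat.card {v : ℕ // v ≤ x ∧ ∃ k, HasDS v k l} : ℝ) ≤ C * y / Real.log y ^ e :=
    le_trans (by exact_mod_cast h1) (h y hy2)
  refine h2.trans ?_
  -- the size of `y`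
  have hsl : 0 < Real.sqrt l := Real.sqrt_pos.mpr (by linarith)
  have hsx : 0 < Real.sqrt x := Real.sqrt_pos.mpr (by linarith)
  have h3 : ((Nat.sqrt (l * x) : ℕ) : ℝ) ≤ Real.sqrt l * Real.sqrt x := by
    rw [← Real.sqrt_mul (by linarith)]
    apply Real.le_sqrt_of_sq_le
    have := Nat.sqrt_le' (l * x)
    exact_mod_cast this
  have h4 : (y : ℝ) ≤ 2 * Real.sqrt l * Real.sqrt x := by
    have : (1 : ℝ) ≤ Nat.sqrt (l * x) := by exact_mod_cast hs1
    rw [hy]; push_cast; linarith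
  have h5 : Real.sqrt x ≤ y := by
    apply Real.sqrt_le_iff.mpr ⟨by positivity, ?_⟩
    have h6 : x ≤ y ^ 2 := by
      have := Nat.lt_succ_sqrt' (l * x)
      have h7 : x ≤ l * x := Nat.le_mul_of_pos_left x (by omega)
      rw [hy]
      simp only [Nat.succ_eq_add_one] at this
      omega
    exact_mod_cast h6
  have hy0 : (0 : ℝ) < y := by linarith
  have hlogx : 0 < Real.log x := Real.log_pos (by linarith)
  have h6 : Real.log x / 2 ≤ Real.log y := by
    have : Real.log (Real.sqrt x) = Real.log x / 2 := by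
      rw [Real.log_sqrt (by linarith)]
    rw [← this]
    exact Real.log_le_log hsx h5
  have h7 : (Real.log x / 2) ^ e ≤ Real.log y ^ e :=
    Real.rpow_le_rpow (by positivity) h6 he
  have h8 : (Real.log x / 2) ^ e = Real.log x ^ e / 2 ^ e :=
    Real.div_rpow hlogx.le (by norm_num) e
  have h9 : 0 < Real.log x ^ e := Real.rpow_pos_of_pos hlogx e
  have h10 : (0 : ℝ) < 2 ^ e := Real.rpow_pos_of_pos (by norm_num) e
  have h11 : 0 < Real.log y ^ e := by
    refine lt_of_lt_of_le ?_ h7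
    rw [h8]; positivity
  rw [h8, div_le_iff₀ h10] at h7
  rw [div_le_div_iff₀ h11 h9]
  calc C * y * Real.log x ^ e ≤ C * (2 * Real.sqrt l * Real.sqrt x) * (Real.log y ^ e * 2 ^ e) := by
        gcongr
    _ = 2 * Real.sqrt l * 2 ^ e * C * Real.sqrt x * Real.log y ^ e := by ring

open Classical in
private lemma both {l : ℕ} (hl : 1 ≤ l) {e C : ℝ} (he : 0 ≤ e) (hC : 0 < C)
    (h : ∀ y : ℕ, 2 ≤ y → ((((Icc 1 y).filter fun k => IsK l k).card : ℕ) : ℝ) ≤
      C * y / Real.log y ^ e) :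
    ∃ C : ℝ, ∀ x : ℕ, 2 ≤ x →
      (Nat.card {k : ℕ // 1 ≤ k ∧ k ≤ x ∧ ∃ v, HasDS v k l} : ℝ) ≤ C * x / Real.log x ^ e ∧
      (Nat.card {v : ℕ // v ≤ x ∧ ∃ k, HasDS v k l} : ℝ) ≤
        C * Real.sqrt x / Real.log x ^ e := by
  refine ⟨max C (2 * Real.sqrt l * 2 ^ e * C), fun x hx => ⟨?_, ?_⟩⟩
  · rw [card_k]
    refine (h x hx).trans ?_
    have : 0 ≤ Real.log x ^ e := Real.rpow_nonneg (Real.log_natCast_nonneg x) _
    have h2 := le_max_left C (2 * Real.sqrt l * 2 ^ e * C)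
    gcongr
  · refine (vbound hl he hC h x hx).trans ?_
    have : 0 ≤ Real.log x ^ e := Real.rpow_nonneg (Real.log_natCast_nonneg x) _
    have h2 := le_max_right C (2 * Real.sqrt l * 2 ^ e * C)
    gcongr

/-- Fix `l ≥ 1` and `0 < ε < 1`.  The number of `k ≤ x` such that some finite group contains a
`(v,k,l)` difference set (for some `v`) is at most `C x / (log x)^(1-ε)`, and the number of the
`v ≤ x` such that some group of order `v` contains a `(v,k,l)` difference set (for some `k`) is at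
most `C √x / (log x)^(1-ε)`.  If `l` is not a square, the same holds with the exponent
`9/8 - ε`, and the sum of `1/k` over all `k` which occur converges. -/
theorem result (l : ℕ) (hl : 1 ≤ l) :
    (∀ ε : ℝ, 0 < ε → ε < 1 → ∃ C : ℝ, ∀ x : ℕ, 2 ≤ x →
      (Nat.card {k : ℕ // 1 ≤ k ∧ k ≤ x ∧ ∃ v, HasDS v k l} : ℝ) ≤
        C * x / Real.log x ^ (1 - ε) ∧
      (Nat.card {v : ℕ // v ≤ x ∧ ∃ k, HasDS v k l} : ℝ) ≤
        C * Real.sqrt x / Real.log x ^ (1 - ε)) ∧
    (¬ IsSquare l →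
      (∀ ε : ℝ, 0 < ε → ε < 1 → ∃ C : ℝ, ∀ x : ℕ, 2 ≤ x →
        (Nat.card {k : ℕ // 1 ≤ k ∧ k ≤ x ∧ ∃ v, HasDS v k l} : ℝ) ≤
          C * x / Real.log x ^ (9 / 8 - ε) ∧
        (Nat.card {v : ℕ // v ≤ x ∧ ∃ k, HasDS v k l} : ℝ) ≤
          C * Real.sqrt x / Real.log x ^ (9 / 8 - ε)) ∧
      Summable (fun k : {k : ℕ // ∃ v, HasDS v k l} => (1 : ℝ) / (k : ℕ))) := by
  classical
  refine ⟨fun ε h0 h1 => ?_, fun hsq => ⟨fun ε h0 h1 => ?_, ?_⟩⟩
  · obtain ⟨C, hC, h⟩ := (mainAll l ε hl h0).1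
    exact both hl (by linarith) hC h
  · obtain ⟨C, hC, h⟩ := (mainAll l ε hl h0).2 hsq
    exact both hl (by linarith) hC h
  · obtain ⟨C, hC, h⟩ := (mainAll l (1 / 16) hl (by norm_num)).2 hsq
    refine tCvg {k | ∃ v, HasDS v k l} C (1 / 16) hC (by norm_num) fun x hx => ?_
    have h2 := h x hx
    have h3 : (9 / 8 - 1 / 16 : ℝ) = 1 + 1 / 16 := by norm_num
    rw [h3] at h2
    have h4 : ({k | ∃ v, HasDS v k l} ∩ Set.Icc 1 x).ncard =
        ((Icc 1 x).filter fun k => IsK l k).card := by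
      rw [← Set.ncard_coe_finset]
      congr 1
      ext k
      simp only [Set.mem_inter_iff, Set.mem_ofPred_eq, Set.mem_Icc, coe_filter, mem_Icc, isK_iff]
      tauto
    rw [h4]
    exact h2

end Pool.Agent.Results.MP_706923_co.LogSparse
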