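import Pool.Agent.Lib.MP_706923_co.PrimeOrd2
import Pool.Agent.Lib.MP_706923_co.Crit1
import Pool.Agent.Lib.MP_706923_co.Crit2
import Pool.Agent.Lib.MP_706923_co.Jac
import Pool.Agent.Lib.MP_706923_co.Desc
import Pool.Agent.Lib.MP_706923_co.Class
import Pool.Agent.Lib.MP_706923_co.Phi
import Pool.Agent.Lib.MP_706923_co.LLow
import Pool.Agent.Lib.MP_706923_co.Crit16
import Pool.Agent.Lib.MP_706923_co.NonSq
import Pool.Agent.Lib.MP_706923_co.Ext
import Pool.Agent.Lib.MP_706923_co.Split
import Pool.Agent.Lib.MP_706923_co.Zeta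
import Pool.Agent.Lib.MP_706923_co.Us2
import Pool.Agent.Lib.MP_706923_co.TSum2

/-!
# MP_706923_co: prime power orders are rare for fixed lambda at least 2

For `lambda = 1` every prime power `n` is the order of a difference set (Singer). For every fixed
`lambda ≥ 2`, at most `C x / (log x)^(1+δ)` prime powers `n ≤ x` are orders
`n = k - lambda` of `(v,k,lambda)` difference sets in finite groups, abelian or not.
-/

set_option autoImplicit false

namespace Pool.Agent.Results.MP_706923_co.PrimeOrders

open Pool.Agent.Lib.MP_706923_co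

/-- For fixed `l ≥ 2` there are `δ > 0` and `C` such that for all `x ≥ 2` at most
`C x / (log x)^(1+δ)` prime powers `n ≤ x` are such that some finite group contains an
`(n+l)`-element difference set with parameter `l`. -/
theorem result (l : ℕ) (hl : 2 ≤ l) :
    ∃ δ C : ℝ, 0 < δ ∧ ∀ x : ℕ, 2 ≤ x →
      (Nat.card {n : ℕ // n ≤ x ∧ IsPrimePow n ∧
        ∃ (G : Type) (_ : Group G) (_ : Fintype G) (_ : DecidableEq G) (D : Finset G),
          D.card = n + l ∧
          ∀ g : G, g ≠ 1 → ((D ×ˢ D).filter (fun p => p.1 * p.2⁻¹ = g)).card = l} : ℝ)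
        ≤ C * x / (Real.log x) ^ (1 + δ) :=
  primeOrdersAll (goodClass crit1 crit2 jac desc) tsum2 (llow phi) crit16 (split nonSq ext') zeta
    us2 l hl

end Pool.Agent.Results.MP_706923_co.PrimeOrders
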