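import Pool.Agent.Lib.MP_706923_coS.Frob
import Pool.Agent.Lib.MP_706923_coS.Mul
import Pool.Agent.Lib.MP_706923_coS.Tra
import Pool.Agent.Lib.MP_706923_coS.Dec
import Pool.Agent.Lib.MP_706923_coS.Fix
import Pool.Agent.Lib.MP_706923_coS.Ari
import Pool.Agent.Lib.MP_706923_coS.Orb
import Pool.Agent.Lib.MP_706923_coS.Psh
import Pool.Agent.Lib.MP_706923_coS.A
import Pool.Agent.Lib.MP_706923_coS.A2

/-!
# MP_706923_co: the orders of the elements of a difference set

Fix `l ≥ 2` and `r`. There is a function `B` such that for every difference set `D` with parameter `l` in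
a finite group `G` and every surjective homomorphism `f` from `G` onto an abelian group `W` of order
prime to `l`, with kernel of order `r`, some translate `D g` has the following property: for all
`d ≠ d'` in `D` the order of `f (d g)` is at most `B (order of f (d d'⁻¹))`. In particular, if all prime
factors of the order of `W` exceed `B 1`, then the translate meets the kernel of `f` in a difference
set with the same parameter `l` (so `l (r - 1) = j (j - 1)` for an integer `j`), and the other cosets
of the kernel in at most one element.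
-/

set_option autoImplicit false

namespace Pool.Agent.Results.MP_706923_co.SubDifferenceSet

open Pool.Agent.DSub

theorem result :
    ∀ l r : ℕ, 2 ≤ l → ∃ B : ℕ → ℕ, ∀ (G W : Type) [Group G] [Fintype G] [DecidableEq G]
      [CommGroup W] [Fintype W] [DecidableEq W] (f : G →* W) (D : Finset G),
      Function.Surjective f → Nat.card f.ker = r → Nat.Coprime (Fintype.card W) l →
      (∀ g : G, g ≠ 1 → ((D ×ˢ D).filter (fun p => p.1 * p.2⁻¹ = g)).card = l) →
      ∃ g : G, (∀ d ∈ D, ∀ d' ∈ D, d ≠ d' →
          orderOf (f (d * g)) ≤ B (orderOf (f (d * d'⁻¹)))) ∧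
        ((∀ q : ℕ, q.Prime → q ∣ Fintype.card W → B 1 < q) →
          ∃ j : ℕ, (D.filter fun d => f (d * g) = 1).card = j ∧ l * (r - 1) = j * (j - 1) ∧
          (∀ y : G, y ≠ 1 → f y = 1 → (((D.filter fun d => f (d * g) = 1) ×ˢ
            (D.filter fun d => f (d * g) = 1)).filter (fun p => p.1 * p.2⁻¹ = y)).card = l) ∧
          ∀ w : W, w ≠ 1 → (D.filter fun d => f (d * g) = w).card ≤ 1) :=
  have hFix : S_Fix := tFix (tTra (tMul tFrob)) tDec
  tA2 hFix tAri tOrb tPsh

end Pool.Agent.Results.MP_706923_co.SubDifferenceSet
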